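import Pool.Agent.H50.G.S.H442R2.KF.Defs
/-!
KF project, part 2 (trilinear version): definitions.
-/

namespace Pool.Agent.H442R2.KF

open Finset

/-- parameters `((l₁, l₂, t), (j₁, j₂))` -/
noncomputable def Par2 (L J : ℕ) : Finset ((ℕ × ℕ × ℤ) × (ℕ × ℕ)) :=
  Par L ×ˢ (Icc 1 J ×ˢ Icc 1 J)

/-- one term, with the frequencies `j₁, j₂` -/
noncomputable def tm2 (ψ : ℕ → ℝ → ℂ) (k : ℤ) (M : ℕ) (P : (ℕ × ℕ × ℤ) × (ℕ × ℕ))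
    (m₁ m₂ : ℕ) : ℂ :=
  if adm M P.1 m₁ m₂ then
    ψ P.2.1 ((m₁ : ℝ) * (nu P.1 m₁ m₂ : ℝ)) *
      (starRingEnd ℂ) (ψ P.2.2 ((m₂ : ℝ) * (nu P.1 m₁ m₂ : ℝ))) *
      (kf ((P.2.1 : ℤ) * k) m₁ (nu P.1 m₁ m₂) *
        (starRingEnd ℂ) (kf ((P.2.2 : ℤ) * k) m₂ (nu P.1 m₁ m₂)))
  else 0

/-- the kernel -/
noncomputable def Ker2 (ψ : ℕ → ℝ → ℂ) (k : ℤ) (M L J m₁ m₂ : ℕ) : ℂ :=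
  ∑ P ∈ Par2 L J, tm2 ψ k M P m₁ m₂

/-- `j₁ l₂ - j₂ l₁` -/
def jl (P : (ℕ × ℕ × ℤ) × (ℕ × ℕ)) : ℤ := (P.2.1 : ℤ) * P.1.2.1 - (P.2.2 : ℤ) * P.1.1

/-- `B₁` -/
def Bq2 (P P' : (ℕ × ℕ × ℤ) × (ℕ × ℕ)) : ℤ :=
  jl P * P.1.2.2 * P'.1.1 * P'.1.2.1 - jl P' * P'.1.2.2 * P.1.1 * P.1.2.1

/-- the product of the bad parameters -/
def G2 (k : ℤ) (P P' : (ℕ × ℕ × ℤ) × (ℕ × ℕ)) : ℕ :=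
  (k * Bq2 P P' * P.1.2.2 * P'.1.2.2 * P.1.2.1 * P'.1.2.1).natAbs

/-- the smooth weight attached to a parameter -/
noncomputable def Om2 (ψ : ℕ → ℝ → ℂ) (k : ℤ) (P : (ℕ × ℕ × ℤ) × (ℕ × ℕ)) (m₂ : ℕ) (s : ℝ) : ℂ :=
  ψ P.2.1 (s * nuR P.1 m₂ s) * (starRingEnd ℂ) (ψ P.2.2 ((m₂ : ℝ) * nuR P.1 m₂ s)) *
    e ((k : ℝ) * (jl P : ℝ) / (nuR P.1 m₂ s * P.1.1 * m₂))

/-- `F_n(m) = ∑_{j ≤ J} ψ_j(mn) e(j k m̄/n)` -/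
noncomputable def FF (ψ : ℕ → ℝ → ℂ) (k : ℤ) (J n m : ℕ) : ℂ :=
  ∑ j ∈ Icc 1 J, ψ j ((m : ℝ) * n) * kf ((j : ℤ) * k) m n

/-- the diagonal quantity -/
noncomputable def DG (ψ : ℕ → ℝ → ℂ) (k : ℤ) (M J : ℕ) : ℝ :=
  ∑ n ∈ Ioc M (2 * M + 1), ∑ m ∈ (Ioc M (2 * M + 1)).filter (fun m => Nat.Coprime m n),
    ‖FF ψ k J n m‖ ^ 2

/-- the weight of a pair of parameters -/
noncomputable def wP (k : ℤ) (P P' : (ℕ × ℕ × ℤ) × (ℕ × ℕ)) : ℝ :=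
  if P.1.1 = P'.1.1 then (P.1.1 : ℝ) else Real.sqrt (Nat.gcd (G2 k P P') (P.1.1 * P'.1.1))

end Pool.Agent.H442R2.KF
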